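import Pool.Agent.W941.MG.Stm

/-!
Project MG, piece MG-SEQ: the registers of a program as a sequence of gates.
-/

set_option autoImplicit false

open MvPolynomial Pool.Agent.W941.MG

namespace Pool.Agent.W639.MG

/-- the registers seen through an evaluation -/
theorem view_eq {n d : ℕ} {R : Type} [CommRing R] [Algebra ℂ R] (M : Fin n → Fin n → R)
    (l l' : List (Fin n → MvPolynomial (Fin n × Fin n) ℂ)) (ρ : Fin d → Fin n) :
    (fun x => aeval (fun p : Fin n × Fin n => M p.1 p.2)
      (view (fun i c => X (i, c)) (fun t => l.getD t 0) ρ x)) =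
    view M (fun t' i => if t' < l.length then
      aeval (fun p : Fin n × Fin n => M p.1 p.2) ((l ++ l').getD t' 0 i) else 0) ρ := by
  funext x
  obtain ⟨a, c | t⟩ := x
  · simp only [view, aeval_X]
  · simp only [view]
    by_cases h : t < l.length
    · rw [if_pos h, List.getD_append _ _ _ _ h]
    · rw [if_neg h, List.getD_eq_default _ _ (not_lt.1 h), Pi.zero_apply, map_zero]

theorem old {n k : ℕ} {R : Type} [CommRing R] [Algebra ℂ R] (M : Fin n → Fin n → R)
    (l l' : List (Fin n → MvPolynomial (Fin n × Fin n) ℂ)) (t : ℕ) (ht : t < l.length)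
    (h : Gate k M
        (fun t' i => if t' < t then aeval (fun p : Fin n × Fin n => M p.1 p.2) (l.getD t' 0 i)
          else 0)
        (fun i => aeval (fun p : Fin n × Fin n => M p.1 p.2) (l.getD t 0 i))) :
    Gate k M
        (fun t' i => if t' < t then
          aeval (fun p : Fin n × Fin n => M p.1 p.2) ((l ++ l').getD t' 0 i) else 0)
        (fun i => aeval (fun p : Fin n × Fin n => M p.1 p.2) ((l ++ l').getD t 0 i)) := by
  have e1 : (fun (t' : ℕ) (i : Fin n) => if t' < t then
      aeval (fun p : Fin n × Fin n => M p.1 p.2) ((l ++ l').getD t' 0 i) else 0) =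
      (fun (t' : ℕ) (i : Fin n) => if t' < t then
        aeval (fun p : Fin n × Fin n => M p.1 p.2) (l.getD t' 0 i) else 0) := by
    funext t' i
    by_cases ht' : t' < t
    · rw [if_pos ht', if_pos ht', List.getD_append _ _ _ _ (ht'.trans ht)]
    · rw [if_neg ht', if_neg ht']
  rw [e1, List.getD_append _ _ _ _ ht]
  exact h

theorem seq : SeqStmt := by
  intro n k l hl
  induction hl with
  | nil =>
    intro R _ _ M t ht
    exact absurd ht (Nat.not_lt_zero _)
  | sum l q _ ih =>
    intro R _ _ M t ht
    rw [List.length_append, List.length_singleton] at ht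
    rcases Nat.lt_succ_iff_lt_or_eq.1 ht with h | h
    · exact old M l _ t h (ih R M t h)
    · subst h
      left
      refine ⟨q, ?_⟩
      funext i
      rw [List.getD_append_right _ _ _ _ le_rfl, Nat.sub_self]
      change aeval _ (∑ τ : Fin k → Fin n, aeval _ q) = _
      rw [map_sum]
      refine Finset.sum_congr rfl fun τ _ => ?_
      rw [comp_aeval_apply, view_eq M l]
  | prod l q _ ih =>
    intro R _ _ M t ht
    rw [List.length_append, List.length_singleton] at ht
    rcases Nat.lt_succ_iff_lt_or_eq.1 ht with h | h
    · exact old M l _ t h (ih R M t h)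
    · subst h
      right
      refine ⟨q, ?_⟩
      funext i
      rw [List.getD_append_right _ _ _ _ le_rfl, Nat.sub_self]
      change aeval _ (∏ i' : Fin n, aeval _ q) = _
      rw [map_prod]
      refine Finset.prod_congr rfl fun τ _ => ?_
      rw [comp_aeval_apply, view_eq M l]

end Pool.Agent.W639.MG
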